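import Mathlib

/-!
# The skew forcing irredundance parameters of a forest coincide
-/

set_option autoImplicit false

open Finset

namespace Pool.Agent.Results.MP_aa1485_co.SkewIrForests

variable {V : Type*}

/-- The vertices that end up blue when the vertices of `S` are blue at the start: if all neighbours
of `u` (a vertex of either colour) except `w` are blue, then the neighbour `w` of `u` is blue. -/
inductive Blue (G : SimpleGraph V) (S : Finset V) : V → Prop
  | init (v : V) : v ∈ S → Blue G S v
  | force (u w : V) : G.Adj u w → (∀ x, G.Adj u x → x ≠ w → Blue G S x) → Blue G S w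

/-- `S` is a skew forcing set. -/
def IsSkewForcing (G : SimpleGraph V) (S : Finset V) : Prop := ∀ v, Blue G S v

/-- `S` is an inclusion-minimal skew forcing set. -/
def IsMinSkewForcing (G : SimpleGraph V) (S : Finset V) : Prop :=
  IsSkewForcing G S ∧ ∀ T, T ⊆ S → IsSkewForcing G T → T = S

/-- `F` is a skew fort: nonempty, and no vertex has exactly one neighbour in `F`. -/
def IsSkewFort (G : SimpleGraph V) (F : Set V) : Prop :=
  F.Nonempty ∧ ∀ v, {w | G.Adj v w ∧ w ∈ F}.ncard ≠ 1

/-- `S` is a `Z₋Ir`-set: every `u ∈ S` has a private skew fort relative to `S`. -/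
def IsIr (G : SimpleGraph V) (S : Finset V) : Prop :=
  ∀ u ∈ S, ∃ F : Set V, IsSkewFort G F ∧ F ∩ S = {u}

/-- `S` is an inclusion-maximal `Z₋Ir`-set. -/
def IsMaxIr (G : SimpleGraph V) (S : Finset V) : Prop :=
  IsIr G S ∧ ∀ T, S ⊆ T → IsIr G T → T = S

/-- The skew forcing number. -/
noncomputable def skewZ (G : SimpleGraph V) : ℕ := sInf {k | ∃ S, IsSkewForcing G S ∧ S.card = k}

/-- The upper skew forcing number. -/
noncomputable def upperSkewZ (G : SimpleGraph V) : ℕ :=
  sSup {k | ∃ S, IsMinSkewForcing G S ∧ S.card = k}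

/-- The lower skew forcing irredundance number. -/
noncomputable def lowerIr (G : SimpleGraph V) : ℕ := sInf {k | ∃ S, IsMaxIr G S ∧ S.card = k}

/-- The upper skew forcing irredundance number. -/
noncomputable def upperIr (G : SimpleGraph V) : ℕ := sSup {k | ∃ S, IsMaxIr G S ∧ S.card = k}

theorem forcing_iff (G : SimpleGraph V) (S : Finset V) :
    IsSkewForcing G S ↔ ∀ F : Set V, IsSkewFort G F → ∃ v ∈ F, v ∈ S := by
  constructor
  · intro h F hF
    by_contra hcon
    push Not at hcon
    have key : ∀ v, Blue G S v → v ∉ F := by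
      intro v hv
      induction hv with
      | init v hv => exact fun hvF => hcon v hvF hv
      | force u w huw _ ih =>
        intro hwF
        apply hF.2 u
        rw [Set.ncard_eq_one]
        refine ⟨w, ?_⟩
        ext x
        rw [Set.mem_singleton_iff]
        constructor
        · rintro ⟨hux, hxF⟩
          by_contra hxw
          exact ih x hux hxw hxF
        · rintro rfl
          exact ⟨huw, hwF⟩
    obtain ⟨v, hv⟩ := hF.1
    exact key v (h v) hv
  · intro h
    by_contra hcon
    unfold IsSkewForcing at hcon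
    push Not at hcon
    obtain ⟨v, hv⟩ := hcon
    obtain ⟨x, hx, hxS⟩ := h {v | ¬ Blue G S v} ⟨⟨v, hv⟩, by
      intro u hu
      rw [Set.ncard_eq_one] at hu
      obtain ⟨w, hw⟩ := hu
      have hw' : w ∈ {w | G.Adj u w ∧ w ∈ {v | ¬ Blue G S v}} := by
        rw [hw]; exact Set.mem_singleton w
      apply hw'.2
      refine Blue.force u w hw'.1 ?_
      intro x hux hxw
      by_contra hx
      have : x ∈ {w | G.Adj u w ∧ w ∈ {v | ¬ Blue G S v}} := ⟨hux, hx⟩
      rw [hw] at this
      exact hxw this⟩
    exact hx (Blue.init x hxS)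

/-- Minimal skew forcing sets are maximal `Z₋Ir`-sets. -/
theorem maxIr_of_minForcing (G : SimpleGraph V) (S : Finset V) (h : IsMinSkewForcing G S) :
    IsMaxIr G S := by
  classical
  constructor
  · intro u hu
    have h1 : ¬ IsSkewForcing G (S.erase u) := by
      intro h2
      have := h.2 _ (erase_subset u S) h2
      rw [← this] at hu
      exact notMem_erase u S hu
    rw [forcing_iff] at h1
    push Not at h1
    obtain ⟨F, hF, hFS⟩ := h1
    refine ⟨F, hF, ?_⟩
    obtain ⟨v, hvF, hvS⟩ := (forcing_iff G S).1 h.1 F hF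
    ext x
    rw [Set.mem_singleton_iff]
    constructor
    · rintro ⟨hx, hxS⟩
      by_contra hxu
      exact hFS x hx (mem_erase.2 ⟨hxu, hxS⟩)
    · rintro rfl
      by_cases hvx : v = x
      · subst hvx
        exact ⟨hvF, hvS⟩
      · exact absurd (mem_erase.2 ⟨hvx, hvS⟩) (hFS v hvF)
  · intro T hST hT
    refine (Subset.antisymm hST ?_).symm
    intro w hw
    by_contra hwS
    obtain ⟨F, hF, hFT⟩ := hT w hw
    obtain ⟨v, hvF, hvS⟩ := (forcing_iff G S).1 h.1 F hF
    have : v ∈ F ∩ (T : Set V) := ⟨hvF, hST hvS⟩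
    rw [hFT, Set.mem_singleton_iff] at this
    rw [this] at hvS
    exact hwS hvS

variable [Fintype V]

open Classical in
/-- The adjacency operator. -/
noncomputable def adjOp (G : SimpleGraph V) : (V → ℝ) →ₗ[ℝ] (V → ℝ) where
  toFun x := fun v => ∑ w, if G.Adj v w then x w else 0
  map_add' x y := by
    funext v
    simp only [Pi.add_apply]
    rw [← sum_add_distrib]
    refine sum_congr rfl fun w _ => ?_
    split <;> simp
  map_smul' c x := by
    funext v
    simp only [Pi.smul_apply, smul_eq_mul, RingHom.id_apply]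
    rw [mul_sum]
    refine sum_congr rfl fun w _ => ?_
    split <;> simp

open Classical in
theorem adjOp_apply (G : SimpleGraph V) (x : V → ℝ) (v : V) :
    adjOp G x v = ∑ w, if G.Adj v w then x w else 0 := rfl

/-- The support of a nonzero null vector is a skew fort. -/
theorem fort_of_null (G : SimpleGraph V) (x : V → ℝ) (hx : adjOp G x = 0) (u : V) (hu : x u ≠ 0) :
    IsSkewFort G {v | x v ≠ 0} := by
  classical
  refine ⟨⟨u, hu⟩, ?_⟩
  intro v hv
  rw [Set.ncard_eq_one] at hv
  obtain ⟨w, hw⟩ := hv
  have h1 : w ∈ {w | G.Adj v w ∧ w ∈ {v | x v ≠ 0}} := by rw [hw]; exact Set.mem_singleton w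
  have h2 := congrFun hx v
  rw [adjOp_apply, sum_eq_single w] at h2
  · rw [if_pos h1.1] at h2
    exact h1.2 h2
  · intro b _ hb
    by_cases hadj : G.Adj v b
    · rw [if_pos hadj]
      by_contra hne
      have : b ∈ {w | G.Adj v w ∧ w ∈ {v | x v ≠ 0}} := ⟨hadj, hne⟩
      rw [hw] at this
      exact hb this
    · rw [if_neg hadj]
  · intro h
    exact absurd (mem_univ w) h

open Classical in
/-- In a forest there is no vector `y` with `∑_{v ∈ N(f)} y v = [f = u]` on a skew fort. -/
theorem no_cert (G : SimpleGraph V) (hG : G.IsAcyclic) (F : Set V) (hF : IsSkewFort G F) (u : V)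
    (hu : u ∈ F) (y : V → ℝ)
    (hy : ∀ f ∈ F, (∑ v, if G.Adj f v then y v else 0) = if f = u then 1 else 0) : False := by
  set A : ℕ → Set V := fun k => if Even k then F else {v | y v ≠ 0} with hA
  have hA2 : ∀ k, A (k + 2) = A k := by
    intro k
    simp only [hA]
    have : Even (k + 2) ↔ Even k := by
      rw [Nat.even_add]
      simp
    simp [this]
  have key : ∀ n : ℕ, ∃ (w : V) (p : G.Walk u w), p.IsPath ∧ p.length = n + 1 ∧
      p.penultimate ∈ A n ∧ w ∈ A (n + 1) := by
    intro n
    induction n with
    | zero =>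
      have h1 := hy u hu
      rw [if_pos rfl] at h1
      have h2 : ∃ v, (if G.Adj u v then y v else 0) ≠ 0 := by
        by_contra hcon
        push Not at hcon
        rw [sum_eq_zero fun v _ => hcon v] at h1
        exact zero_ne_one h1
      obtain ⟨v, hv⟩ := h2
      have hadj : G.Adj u v := by
        by_contra h
        rw [if_neg h] at hv
        exact hv rfl
      rw [if_pos hadj] at hv
      refine ⟨v, .cons hadj .nil, ?_, rfl, ?_, ?_⟩
      · rw [SimpleGraph.Walk.cons_isPath_iff]
        refine ⟨SimpleGraph.Walk.IsPath.nil, ?_⟩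
        simpa using hadj.ne
      · simpa [hA] using hu
      · simpa [hA] using hv
    | succ n ih =>
      obtain ⟨w, p, hp, hlen, hpen, hw⟩ := ih
      have hnn : ¬ p.Nil := by
        intro h
        have := SimpleGraph.Walk.length_eq_zero_iff.2 h
        omega
      have hadj : G.Adj w p.penultimate := (p.adj_penultimate hnn).symm
      obtain ⟨w', hw'adj, hw'ne, hw'A⟩ : ∃ w', G.Adj w w' ∧ w' ≠ p.penultimate ∧ w' ∈ A n := by
        by_contra hcon
        push Not at hcon
        by_cases hn : Even n
        · have hAn : A n = F := by simp [hA, hn]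
          rw [hAn] at hcon hpen
          apply hF.2 w
          rw [Set.ncard_eq_one]
          refine ⟨p.penultimate, ?_⟩
          ext x
          rw [Set.mem_singleton_iff]
          constructor
          · rintro ⟨h1, h2⟩
            by_contra h3
            exact hcon x h1 h3 h2
          · rintro rfl
            exact ⟨hadj, hpen⟩
        · have hAn : A n = {v | y v ≠ 0} := by simp [hA, hn]
          have hAn1 : A (n + 1) = F := by
            simp [hA, Nat.even_add_one, hn]
          rw [hAn] at hcon hpen
          rw [hAn1] at hw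
          have hwu : w ≠ u := by
            intro hwu
            subst hwu
            have h5 := SimpleGraph.Walk.length_eq_zero_iff.2 (SimpleGraph.Walk.isPath_iff_nil.1 hp)
            omega
          have h1 := hy w hw
          rw [if_neg hwu, sum_eq_single p.penultimate, if_pos hadj] at h1
          · exact hpen h1
          · intro b _ hb
            by_cases hwb : G.Adj w b
            · rw [if_pos hwb]
              by_contra h2
              exact hcon b hwb hb h2
            · rw [if_neg hwb]
          · intro h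
            exact absurd (mem_univ _) h
      have hnotin : w' ∉ p.support := by
        intro h
        exact hw'ne (hG.eq_penultimate_of_adj_end hp hw'adj h)
      refine ⟨w', p.concat hw'adj, hp.concat hnotin hw'adj, ?_, ?_, ?_⟩
      · rw [SimpleGraph.Walk.length_concat, hlen]
      · rw [SimpleGraph.Walk.penultimate_concat]
        exact hw
      · rw [show n + 1 + 1 = n + 2 by ring, hA2]
        exact hw'A
  obtain ⟨w, p, hp, hlen, -, -⟩ := key (Fintype.card V)
  have := hp.length_lt
  omega

/-- In a forest, every vertex of a skew fort `F` is in the support of a null vector supported in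
`F`. -/
theorem exists_null (G : SimpleGraph V) (hG : G.IsAcyclic) (F : Set V) (hF : IsSkewFort G F)
    (u : V) (hu : u ∈ F) :
    ∃ x : V → ℝ, adjOp G x = 0 ∧ (∀ v, v ∉ F → x v = 0) ∧ x u ≠ 0 := by
  classical
  by_contra hcon
  push Not at hcon
  let P : (V → ℝ) →ₗ[ℝ] (V → ℝ) :=
    { toFun := fun x v => if v ∈ F then x v else 0
      map_add' := fun x y => by
        funext v
        by_cases h : v ∈ F <;> simp [h]
      map_smul' := fun c x => by
        funext v
        by_cases h : v ∈ F <;> simp [h] }
  have hP : ∀ x v, P x v = if v ∈ F then x v else 0 := fun x v => rfl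
  let L := adjOp G ∘ₗ P
  have hker : (LinearMap.proj u : (V → ℝ) →ₗ[ℝ] ℝ) ∈ (LinearMap.ker L).dualAnnihilator := by
    rw [Submodule.mem_dualAnnihilator]
    intro x hx
    rw [LinearMap.mem_ker] at hx
    have h1 := hcon (P x) hx (fun v hv => by rw [hP, if_neg hv])
    rw [hP, if_pos hu] at h1
    exact h1
  rw [← LinearMap.range_dualMap_eq_dualAnnihilator_ker] at hker
  obtain ⟨g, hg⟩ := hker
  have hg' : ∀ x, g (L x) = x u := by
    intro x
    have := LinearMap.congr_fun hg x
    exact this
  refine no_cert G hG F hF u hu (fun v => g (Pi.single v 1)) ?_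
  intro f hf
  have h1 := hg' (Pi.single f 1)
  have h2 : L (Pi.single f 1) = ∑ v, (if G.Adj f v then (1 : ℝ) else 0) • (Pi.single v 1 : V → ℝ) := by
    have h3 : P (Pi.single f 1) = Pi.single f 1 := by
      funext v
      rw [hP]
      by_cases hv : v ∈ F
      · rw [if_pos hv]
      · rw [if_neg hv]
        have : v ≠ f := by
          rintro rfl
          exact hv hf
        simp [this]
    show adjOp G (P (Pi.single f 1)) = _
    rw [h3]
    funext v
    rw [adjOp_apply, Finset.sum_apply, sum_eq_single f, sum_eq_single v]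
    · simp [G.adj_comm]
    · intro b _ hb
      simp [hb.symm]
    · intro h
      exact absurd (mem_univ _) h
    · intro b _ hb
      simp [hb]
    · intro h
      exact absurd (mem_univ _) h
  rw [h2, map_sum] at h1
  have h4 : ∀ v, g ((if G.Adj f v then (1 : ℝ) else 0) • (Pi.single v 1 : V → ℝ)) =
      if G.Adj f v then g (Pi.single v 1) else 0 := by
    intro v
    by_cases h : G.Adj f v <;> simp [h]
  rw [sum_congr rfl fun v _ => h4 v] at h1
  rw [h1]
  by_cases hfu : f = u
  · subst hfu
    simp
  · simp [hfu, Ne.symm hfu]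

/-- In a forest, all maximal `Z₋Ir`-sets have the same size. -/
theorem card_maxIr (G : SimpleGraph V) (hG : G.IsAcyclic) (S : Finset V) (hS : IsMaxIr G S) :
    S.card = Module.finrank ℝ (LinearMap.ker (adjOp G)) := by
  classical
  set K := LinearMap.ker (adjOp G) with hK
  let ρ : K →ₗ[ℝ] (S → ℝ) :=
    { toFun := fun x s => (x : V → ℝ) s
      map_add' := fun x y => rfl
      map_smul' := fun c x => rfl }
  have hvec : ∀ u ∈ S, ∃ x : V → ℝ, adjOp G x = 0 ∧ x u ≠ 0 ∧ ∀ s ∈ S, s ≠ u → x s = 0 := by
    intro u hu
    obtain ⟨F, hF, hFS⟩ := hS.1 u hu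
    have huF : u ∈ F := by
      have : u ∈ F ∩ (S : Set V) := by rw [hFS]; exact Set.mem_singleton u
      exact this.1
    obtain ⟨x, hx, hxF, hxu⟩ := exists_null G hG F hF u huF
    refine ⟨x, hx, hxu, fun s hs hsu => hxF s fun hsF => hsu ?_⟩
    have : s ∈ F ∩ (S : Set V) := ⟨hsF, mem_coe.2 hs⟩
    rw [hFS] at this
    exact this
  have hsurj : Function.Surjective ρ := by
    choose x hx hxu hxs using hvec
    intro z
    refine ⟨∑ s : S, (z s / x s s.2 s) • (⟨x s s.2, LinearMap.mem_ker.2 (hx s s.2)⟩ : K), ?_⟩
    funext t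
    have h1 : ρ (∑ s : S, (z s / x s s.2 s) • (⟨x s s.2, LinearMap.mem_ker.2 (hx s s.2)⟩ : K)) t =
        ∑ s : S, (z s / x s s.2 s) * x s s.2 t := by
      rw [map_sum, Finset.sum_apply]
      rfl
    rw [h1, sum_eq_single t]
    · exact div_mul_cancel₀ _ (hxu t t.2)
    · intro b _ hb
      rw [hxs b b.2 t t.2 (fun h => hb (Subtype.ext h.symm)), mul_zero]
    · intro h
      exact absurd (mem_univ _) h
  have hinj : Function.Injective ρ := by
    rw [← LinearMap.ker_eq_bot]
    by_contra hne
    obtain ⟨x, hx, hx0⟩ := (Submodule.ne_bot_iff _).1 hne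
    have hxS : ∀ s ∈ S, (x : V → ℝ) s = 0 := by
      intro s hs
      exact congrFun (LinearMap.mem_ker.1 hx) ⟨s, hs⟩
    have hxw : ∃ w, (x : V → ℝ) w ≠ 0 := by
      by_contra hcon
      push Not at hcon
      exact hx0 (Subtype.ext (funext hcon))
    obtain ⟨w, hw⟩ := hxw
    have hxK : adjOp G (x : V → ℝ) = 0 := LinearMap.mem_ker.1 x.2
    have hwS : w ∉ S := fun h => hw (hxS w h)
    have hins : IsIr G (insert w S) := by
      intro u hu
      have hvec2 : ∃ z : V → ℝ, adjOp G z = 0 ∧ z u ≠ 0 ∧ ∀ s ∈ insert w S, s ≠ u → z s = 0 := by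
        rcases mem_insert.1 hu with rfl | hu
        · refine ⟨x, hxK, hw, ?_⟩
          intro s hs hsu
          rcases mem_insert.1 hs with rfl | hs
          · exact absurd rfl hsu
          · exact hxS s hs
        · obtain ⟨y, hy, hyu, hys⟩ := hvec u hu
          refine ⟨y - (y w / (x : V → ℝ) w) • (x : V → ℝ), ?_, ?_, ?_⟩
          · rw [map_sub, map_smul, hy, hxK, smul_zero, sub_zero]
          · simp only [Pi.sub_apply, Pi.smul_apply, smul_eq_mul]
            rw [hxS u hu, mul_zero, sub_zero]
            exact hyu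
          · intro s hs hsu
            simp only [Pi.sub_apply, Pi.smul_apply, smul_eq_mul]
            rcases mem_insert.1 hs with rfl | hs
            · rw [div_mul_cancel₀ _ hw, sub_self]
            · rw [hxS s hs, mul_zero, sub_zero]
              exact hys s hs hsu
      obtain ⟨z, hz, hzu, hzs⟩ := hvec2
      refine ⟨{v | z v ≠ 0}, fort_of_null G z hz u hzu, ?_⟩
      ext s
      rw [Set.mem_singleton_iff]
      constructor
      · rintro ⟨h1, h2⟩
        by_contra hsu
        exact h1 (hzs s (mem_coe.1 h2) hsu)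
      · rintro rfl
        exact ⟨hzu, mem_coe.2 hu⟩
    have := hS.2 _ (subset_insert w S) hins
    rw [← this] at hwS
    exact hwS (mem_insert_self w S)
  have h1 := LinearEquiv.finrank_eq (LinearEquiv.ofBijective ρ ⟨hinj, hsurj⟩)
  rw [h1, Module.finrank_fintype_fun_eq_card, Fintype.card_coe]

/-- Existence of minimal skew forcing sets below a given one. -/
theorem exists_min (G : SimpleGraph V) : ∃ S, IsSkewForcing G S ∧ S.card = skewZ G ∧
    IsMinSkewForcing G S := by
  classical
  have hne : {k | ∃ S, IsSkewForcing G S ∧ S.card = k}.Nonempty :=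
    ⟨_, univ, fun v => Blue.init v (mem_univ v), rfl⟩
  obtain ⟨S, hS, hSc⟩ := Nat.sInf_mem hne
  refine ⟨S, hS, hSc, hS, ?_⟩
  intro T hTS hT
  refine eq_of_subset_of_card_le hTS ?_
  rw [hSc]
  exact Nat.sInf_le ⟨T, hT, rfl⟩

/-- For every forest the four skew forcing parameters coincide. -/
theorem result (V : Type*) [Fintype V] [Nonempty V] (G : SimpleGraph V) (hG : G.IsAcyclic) :
    lowerIr G = skewZ G ∧ skewZ G = upperSkewZ G ∧ upperSkewZ G = upperIr G := by
  obtain ⟨S, -, hSc, hS⟩ := exists_min G
  set n := Module.finrank ℝ (LinearMap.ker (adjOp G)) with hn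
  have hmax := maxIr_of_minForcing G S hS
  have h1 : {k | ∃ S, IsMaxIr G S ∧ S.card = k} = {n} := by
    ext k
    rw [Set.mem_singleton_iff]
    constructor
    · rintro ⟨T, hT, rfl⟩
      exact card_maxIr G hG T hT
    · rintro rfl
      exact ⟨S, hmax, card_maxIr G hG S hmax⟩
  have h2 : {k | ∃ S, IsMinSkewForcing G S ∧ S.card = k} = {n} := by
    ext k
    rw [Set.mem_singleton_iff]
    constructor
    · rintro ⟨T, hT, rfl⟩
      exact card_maxIr G hG T (maxIr_of_minForcing G T hT)
    · rintro rfl
      exact ⟨S, hS, card_maxIr G hG S hmax⟩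
  have h3 : skewZ G = n := by
    rw [← hSc]
    exact card_maxIr G hG S hmax
  unfold lowerIr upperSkewZ upperIr
  rw [h1, h2, h3, csInf_singleton, csSup_singleton]
  exact ⟨rfl, rfl, rfl⟩

end Pool.Agent.Results.MP_aa1485_co.SkewIrForests
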